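import Mathlib

set_option autoImplicit false

/-!
# A consistent path system simply induced by real weights but not by positive weights
-/

namespace Pool.Agent.Results.MP_11d8b4_co.NineVertices

/-- The list l is the list of vertices of a simple u-v path of G. -/
def IsPathList {V : Type} (G : SimpleGraph V) (u v : V) (l : List V) : Prop :=
  l.IsChain G.Adj ∧ l.Nodup ∧ l.head? = some u ∧ l.getLast? = some v

/-- The weight of a path: the sum of the weights of its edges. -/
def weight {V : Type} {R : Type} [AddCommMonoid R] (w : Sym2 V → R) : List V → R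
  | a :: b :: l => w s(a, b) + weight w (b :: l)
  | _ => 0

/-- A path system: one simple path for each unordered pair of distinct vertices (the path from v
to u is the reverse of the path from u to v). -/
structure PathSystem {V : Type} (G : SimpleGraph V) where
  /-- the path between two vertices -/
  path : V → V → List V
  /-- it is a simple path with the right ends -/
  isPath : ∀ u v, u ≠ v → IsPathList G u v (path u v)
  /-- it does not depend on the order of the pair -/
  symm : ∀ u v, u ≠ v → path v u = (path u v).reverse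

/-- Consistency: for distinct x, y on the path between u and v, the path between x and y is the
part of that path between x and y (a contiguous part, in one of the two directions). -/
def Consistent {V : Type} {G : SimpleGraph V} (P : PathSystem G) : Prop :=
  ∀ u v x y, u ≠ v → x ≠ y → x ∈ P.path u v → y ∈ P.path u v →
    P.path x y <:+: P.path u v ∨ P.path y x <:+: P.path u v

/-- w simply induces P: for distinct u, v the path of P is the unique simple u-v path of minimum
weight. -/
def SimplyInduces {V : Type} {G : SimpleGraph V} (w : Sym2 V → ℝ) (P : PathSystem G) : Prop :=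
  ∀ u v, u ≠ v → ∀ Q, IsPathList G u v Q → Q ≠ P.path u v →
    weight w (P.path u v) < weight w Q

/-! ## The example -/

/-- The integer weights; 0 means that there is no edge. -/
def wt : Fin 9 → Fin 9 → ℤ :=
  ![![0, -5, 8, 10, 10, 10, 0, 0, 0],
    ![-5, 0, 0, 0, 0, 0, 10, 10, 10],
    ![8, 0, 0, 8, 11, 11, 8, 11, 11],
    ![10, 0, 8, 0, 0, 0, 0, 0, 0],
    ![10, 0, 11, 0, 0, 0, 0, 0, 0],
    ![10, 0, 11, 0, 0, 0, 0, 0, 0],
    ![0, 10, 8, 0, 0, 0, 0, 0, 0],
    ![0, 10, 11, 0, 0, 0, 0, 0, 0],
    ![0, 10, 11, 0, 0, 0, 0, 0, 0]]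

/-- The graph. -/
def G9 : SimpleGraph (Fin 9) where
  Adj i j := wt i j ≠ 0
  symm := ⟨by decide⟩
  loopless := ⟨by decide⟩

instance : DecidableRel G9.Adj := fun i j => inferInstanceAs (Decidable (wt i j ≠ 0))

/-- The paths. -/
def tab : Fin 9 → Fin 9 → List (Fin 9) :=
  ![![[0], [0, 1], [0, 2], [0, 3], [0, 4], [0, 5], [0, 1, 6], [0, 1, 7], [0, 1, 8]],
    ![[1, 0], [1], [1, 0, 2], [1, 0, 3], [1, 0, 4], [1, 0, 5], [1, 6], [1, 7], [1, 8]],
    ![[2, 0], [2, 0, 1], [2], [2, 3], [2, 4], [2, 5], [2, 6], [2, 7], [2, 8]],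
    ![[3, 0], [3, 0, 1], [3, 2], [3], [3, 2, 4], [3, 2, 5], [3, 0, 1, 6], [3, 0, 1, 7], [3, 0, 1, 8]],
    ![[4, 0], [4, 0, 1], [4, 2], [4, 2, 3], [4], [4, 0, 5], [4, 0, 1, 6], [4, 0, 1, 7], [4, 0, 1, 8]],
    ![[5, 0], [5, 0, 1], [5, 2], [5, 2, 3], [5, 0, 4], [5], [5, 0, 1, 6], [5, 0, 1, 7], [5, 0, 1, 8]],
    ![[6, 1, 0], [6, 1], [6, 2], [6, 1, 0, 3], [6, 1, 0, 4], [6, 1, 0, 5], [6], [6, 2, 7], [6, 2, 8]],
    ![[7, 1, 0], [7, 1], [7, 2], [7, 1, 0, 3], [7, 1, 0, 4], [7, 1, 0, 5], [7, 2, 6], [7], [7, 1, 8]],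
    ![[8, 1, 0], [8, 1], [8, 2], [8, 1, 0, 3], [8, 1, 0, 4], [8, 1, 0, 5], [8, 2, 6], [8, 1, 7], [8]]]

instance (u v : Fin 9) (l : List (Fin 9)) : Decidable (IsPathList G9 u v l) :=
  inferInstanceAs (Decidable (_ ∧ _ ∧ _ ∧ _))

/-- The path system. -/
def P9 : PathSystem G9 where
  path := tab
  isPath := by decide +kernel
  symm := by decide +kernel

theorem consistent9 : Consistent P9 := by
  show ∀ u v x y, u ≠ v → x ≠ y → x ∈ tab u v → y ∈ tab u v →
    tab x y <:+: tab u v ∨ tab y x <:+: tab u v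
  decide +kernel

/-- weight of a list with the integer weights -/
def lw : List (Fin 9) → ℤ
  | a :: b :: l => wt a b + lw (b :: l)
  | _ => 0

/-- all simple paths with k edges, as lists -/
def paths : ℕ → List (List (Fin 9))
  | 0 => (List.finRange 9).map (fun u => [u])
  | k + 1 => (paths k).flatMap (fun l => match l with
    | [] => []
    | a :: l' => ((List.finRange 9).filter (fun n => wt n a ≠ 0 ∧ n ∉ a :: l')).map
        (fun n => n :: a :: l'))

theorem mem_paths : ∀ l : List (Fin 9), l ≠ [] → l.IsChain G9.Adj → l.Nodup →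
    l ∈ paths (l.length - 1)
  | [], h, _, _ => absurd rfl h
  | [a], _, _, _ => by simp [paths]
  | a :: b :: l, _, hch, hnd => by
    have ih := mem_paths (b :: l) (by simp) (by rw [List.isChain_cons_cons] at hch; exact hch.2)
      (List.Nodup.of_cons hnd)
    have hab : G9.Adj a b := by rw [List.isChain_cons_cons] at hch; exact hch.1
    have hlen : (a :: b :: l).length - 1 = ((b :: l).length - 1) + 1 := by simp
    rw [hlen]
    simp only [paths, List.mem_flatMap]
    refine ⟨b :: l, ih, ?_⟩
    simp only [List.mem_map, List.mem_filter, List.mem_finRange, true_and, decide_eq_true_eq]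
    refine ⟨a, ⟨hab, ?_⟩, rfl⟩
    rw [List.nodup_cons] at hnd
    exact hnd.1

/-- the test carried out for each simple path -/
def good (l : List (Fin 9)) : Bool :=
  match l.head?, l.getLast? with
  | some u, some v => u = v ∨ l = tab u v ∨ lw (tab u v) < lw l
  | _, _ => true

theorem all_good : ∀ k < 9, (paths k).all good = true := by decide +kernel

theorem good_path (u v : Fin 9) (huv : u ≠ v) (l : List (Fin 9)) (hl : IsPathList G9 u v l)
    (hne : l ≠ tab u v) : lw (tab u v) < lw l := by
  obtain ⟨h1, h2, h3, h4⟩ := hl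
  have hnil : l ≠ [] := by rintro rfl; simp at h3
  have hlen : l.length ≤ 9 := by
    have := h2.length_le_card
    simpa using this
  have hpos : 0 < l.length := List.length_pos_iff.2 hnil
  have hmem := mem_paths l hnil h1 h2
  have hgood := all_good (l.length - 1) (by omega)
  rw [List.all_eq_true] at hgood
  have hg := hgood l hmem
  unfold good at hg
  rw [h3, h4] at hg
  simp only [decide_eq_true_eq] at hg
  rcases hg with h | h | h
  · exact absurd h huv
  · exact absurd h hne
  · exact h

/-- The real weight function. -/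
noncomputable def w9 : Sym2 (Fin 9) → ℝ :=
  Sym2.lift ⟨fun i j => (wt i j : ℝ), by
    intro i j
    have h : wt i j = wt j i := by revert i j; decide
    show (wt i j : ℝ) = (wt j i : ℝ)
    rw [h]⟩

theorem weight_w9 : ∀ l : List (Fin 9), weight w9 l = (lw l : ℝ)
  | [] => by simp [weight, lw]
  | [a] => by simp [weight, lw]
  | a :: b :: l => by
    simp only [weight, lw]
    rw [weight_w9 (b :: l)]
    push_cast
    rfl

theorem induces9 : SimplyInduces w9 P9 := by
  intro u v huv Q hQ hne
  rw [weight_w9, weight_w9]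
  exact_mod_cast good_path u v huv Q hQ hne

theorem connected9 : G9.Connected := by
  refine ⟨?_⟩
  have h0 : ∀ v : Fin 9, G9.Reachable 0 v := by
    have e1 : G9.Adj 0 1 := by decide
    have e2 : G9.Adj 0 2 := by decide
    have e3 : ∀ v : Fin 9, v = 0 ∨ G9.Adj 0 v ∨ G9.Adj 1 v := by decide
    intro v
    rcases e3 v with h | h | h
    · rw [h]
    · exact h.reachable
    · exact e1.reachable.trans h.reachable
  intro u v
  exact (h0 u).symm.trans (h0 v)

theorem not_positive (w : Sym2 (Fin 9) → ℝ) (hpos : ∀ e ∈ G9.edgeSet, 0 < w e) :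
    ¬ SimplyInduces w P9 := by
  intro h
  have key : ∀ u v : Fin 9, u ≠ v → ∀ Q, IsPathList G9 u v Q → Q ≠ tab u v →
      weight w (tab u v) < weight w Q := h
  have h1 := key 3 4 (by decide) [3, 0, 4] (by decide) (by decide)
  have h2 := key 3 5 (by decide) [3, 0, 5] (by decide) (by decide)
  have h3 := key 4 5 (by decide) [4, 2, 5] (by decide) (by decide)
  have h4 := key 6 7 (by decide) [6, 1, 7] (by decide) (by decide)
  have h5 := key 6 8 (by decide) [6, 1, 8] (by decide) (by decide)
  have h6 := key 7 8 (by decide) [7, 2, 8] (by decide) (by decide)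
  have h7 := key 3 6 (by decide) [3, 2, 6] (by decide) (by decide)
  have t1 : tab 3 4 = [3, 2, 4] := rfl
  have t2 : tab 3 5 = [3, 2, 5] := rfl
  have t3 : tab 4 5 = [4, 0, 5] := rfl
  have t4 : tab 6 7 = [6, 2, 7] := rfl
  have t5 : tab 6 8 = [6, 2, 8] := rfl
  have t6 : tab 7 8 = [7, 1, 8] := rfl
  have t7 : tab 3 6 = [3, 0, 1, 6] := rfl
  rw [t1] at h1
  rw [t2] at h2
  rw [t3] at h3
  rw [t4] at h4
  rw [t5] at h5
  rw [t6] at h6
  rw [t7] at h7
  simp only [weight, add_zero] at h1 h2 h3 h4 h5 h6 h7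
  have hp := hpos s(0, 1) (by show G9.Adj 0 1; decide)
  rw [Sym2.eq_swap (a := (4 : Fin 9)) (b := 0), Sym2.eq_swap (a := (4 : Fin 9)) (b := 2)] at h3
  rw [Sym2.eq_swap (a := (7 : Fin 9)) (b := 1), Sym2.eq_swap (a := (7 : Fin 9)) (b := 2)] at h6
  rw [Sym2.eq_swap (a := (3 : Fin 9)) (b := 2), Sym2.eq_swap (a := (3 : Fin 9)) (b := 0)] at h1 h2 h7
  rw [Sym2.eq_swap (a := (6 : Fin 9)) (b := 2), Sym2.eq_swap (a := (6 : Fin 9)) (b := 1)] at h4 h5
  linarith

/-- **Negative answer to Q1**: a consistent path system on a connected graph with nine vertices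
which is simply induced by a real-valued weight function, but by no positive one. -/
theorem result : ∃ (V : Type) (_ : Fintype V) (G : SimpleGraph V) (P : PathSystem G),
    G.Connected ∧ Consistent P ∧ (∃ w : Sym2 V → ℝ, SimplyInduces w P) ∧
    ¬ ∃ w : Sym2 V → ℝ, (∀ e ∈ G.edgeSet, 0 < w e) ∧ SimplyInduces w P :=
  ⟨Fin 9, inferInstance, G9, P9, connected9, consistent9, ⟨w9, induces9⟩,
    fun ⟨w, h1, h2⟩ => not_positive w h1 h2⟩

end Pool.Agent.Results.MP_11d8b4_co.NineVertices
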